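import Pool.Agent.Helper22.G4.St.C0

/-! # G4-C6: a flat is the intersection of its two facets -/

namespace Pool.Agent.Helper90.G4

open Pool.Agent.Helper22.G4

theorem u_inj {a i j b k l : ℕ} : Vx.u a i j = Vx.u b k l ↔ a = b ∧ i = k ∧ j = l := by
  simp [Vx.u]

theorem u_ne_b1 {a i j : ℕ} : ¬ Vx.u a i j = Vx.b1 := by simp [Vx.u, Vx.b1]
theorem u_ne_b2 {a i j : ℕ} : ¬ Vx.u a i j = Vx.b2 := by simp [Vx.u, Vx.b2]
theorem u_ne_p {a i j g : ℕ} : ¬ Vx.u a i j = Vx.p g := by simp [Vx.u, Vx.p]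
theorem u_ne_q {a i j g : ℕ} : ¬ Vx.u a i j = Vx.q g := by simp [Vx.u, Vx.q]
theorem b1_ne_u {a i j : ℕ} : ¬ Vx.b1 = Vx.u a i j := by simp [Vx.u, Vx.b1]
theorem b2_ne_u {a i j : ℕ} : ¬ Vx.b2 = Vx.u a i j := by simp [Vx.u, Vx.b2]
theorem p_ne_u {a i j g : ℕ} : ¬ Vx.p g = Vx.u a i j := by simp [Vx.u, Vx.p]
theorem q_ne_u {a i j g : ℕ} : ¬ Vx.q g = Vx.u a i j := by simp [Vx.u, Vx.q]
theorem p_inj {g h : ℕ} : Vx.p g = Vx.p h ↔ g = h := by simp [Vx.p]
theorem q_inj {g h : ℕ} : Vx.q g = Vx.q h ↔ g = h := by simp [Vx.q]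
theorem p_ne_q {g h : ℕ} : ¬ Vx.p g = Vx.q h := by simp [Vx.p, Vx.q]
theorem q_ne_p {g h : ℕ} : ¬ Vx.q g = Vx.p h := by simp [Vx.p, Vx.q]
theorem p_ne_b1 {g : ℕ} : ¬ Vx.p g = Vx.b1 := by simp [Vx.p, Vx.b1]
theorem p_ne_b2 {g : ℕ} : ¬ Vx.p g = Vx.b2 := by simp [Vx.p, Vx.b2]
theorem q_ne_b1 {g : ℕ} : ¬ Vx.q g = Vx.b1 := by simp [Vx.q, Vx.b1]
theorem q_ne_b2 {g : ℕ} : ¬ Vx.q g = Vx.b2 := by simp [Vx.q, Vx.b2]
theorem b1_ne_p {g : ℕ} : ¬ Vx.b1 = Vx.p g := by simp [Vx.p, Vx.b1]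
theorem b2_ne_p {g : ℕ} : ¬ Vx.b2 = Vx.p g := by simp [Vx.p, Vx.b2]
theorem b1_ne_q {g : ℕ} : ¬ Vx.b1 = Vx.q g := by simp [Vx.q, Vx.b1]
theorem b2_ne_q {g : ℕ} : ¬ Vx.b2 = Vx.q g := by simp [Vx.q, Vx.b2]
theorem b1_ne_b2 : ¬ Vx.b1 = Vx.b2 := by simp [Vx.b2, Vx.b1]
theorem b2_ne_b1 : ¬ Vx.b2 = Vx.b1 := by simp [Vx.b2, Vx.b1]

theorem prev_p {N a s : ℕ} : (OpD.prev N a s).2.2.2.1 = 0 := by
  unfold OpD.prev; split_ifs <;> rfl
theorem prev_q {N a s : ℕ} : (OpD.prev N a s).2.2.2.2 = 0 := by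
  unfold OpD.prev; split_ifs <;> rfl
theorem next_p {M N a s : ℕ} : (OpD.next M N a s).2.2.2.1 = 0 := by
  unfold OpD.next; split_ifs <;> rfl
theorem next_q {M N a s : ℕ} : (OpD.next M N a s).2.2.2.2 = 0 := by
  unfold OpD.next; split_ifs <;> rfl
theorem prev_b1 {N a s : ℕ} : (OpD.prev N a s).2.2.1.2 = true ↔ a = 1 ∨ s = N := by
  unfold OpD.prev; split_ifs with h <;> simp [Fc.Q, Fc.F, h]
theorem prev_b2 {N a s : ℕ} : (OpD.prev N a s).2.2.1.1 = true ↔ a = 1 ∨ s = 0 := by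
  unfold OpD.prev; split_ifs with h <;> simp [Fc.Q, Fc.F, h]
theorem next_b1 {M N a s : ℕ} : (OpD.next M N a s).2.2.1.2 = true ↔ a = M ∨ s = N := by
  unfold OpD.next; split_ifs with h <;> simp [Fc.Q, Fc.F, h]
theorem next_b2 {M N a s : ℕ} : (OpD.next M N a s).2.2.1.1 = true ↔ a = M ∨ s = 0 := by
  unfold OpD.next; split_ifs with h <;> simp [Fc.Q, Fc.F, h]
theorem prev_u {N a s b i j : ℕ} : Fc.mem (OpD.prev N a s) (Vx.u b i j) = true ↔
    (a = 1 ∧ (b = 0 ∨ b = 1) ∧ i ≤ N) ∨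
      (a ≠ 1 ∧ (b = 0 ∨ b = a - 1 ∨ b = a - 1 + 1) ∧ i ≤ s ∧ s ≤ j) := by
  rw [Fc.mem_u]
  unfold OpD.prev
  by_cases h : a = 1
  · rw [if_pos h]; simp only [Fc.Q]; omega
  · rw [if_neg h]; simp only [Fc.F]; omega
theorem next_u {M N a s b i j : ℕ} : Fc.mem (OpD.next M N a s) (Vx.u b i j) = true ↔
    (a = M ∧ (b = 0 ∨ b = M) ∧ i ≤ N) ∨
      (a ≠ M ∧ (b = 0 ∨ b = a ∨ b = a + 1) ∧ i ≤ s ∧ s ≤ j) := by
  rw [Fc.mem_u]
  unfold OpD.next
  by_cases h : a = M
  · rw [if_pos h]; simp only [Fc.Q]; omega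
  · rw [if_neg h]; simp only [Fc.F]; omega

theorem pu_zero {I : NF} {i j : ℕ} (h : I.PU 0 i j) : i < I.N ∧ j = i + 1 := by
  rcases NF.pu_iff.1 h with h | ⟨d, hd, h⟩
  · exact ⟨h.2.1, h.2.2⟩
  · simp only [OpD.pa, OpD.pb, OpD.pc, OpD.pd] at h
    omega

/-- the vertices of a page of the operation `d` -/
theorem pu_cases {I : NF} {a i j : ℕ} (h : I.PU a i j) {d : OpD} (hd : d ∈ I.opds) :
    (a = 0 ∧ i < I.N ∧ j = i + 1) ∨
      ((a = 4 * d.n + 1 ∧ ((i = 0 ∧ j = d.z) ∨ (i = d.z ∧ j = d.x) ∨ (i = d.x ∧ j = I.N))) ∨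
      (a = 4 * d.n + 2 ∧ ((i = 0 ∧ j = d.y) ∨ (i = d.y ∧ j = d.i) ∨ (i = d.i ∧ j = d.x) ∨
        (i = d.x ∧ j = I.N))) ∨
      (a = 4 * d.n + 3 ∧ ((i = 0 ∧ j = d.y) ∨ (i = d.y ∧ j = d.v) ∨ (i = d.v ∧ j = I.N))) ∨
      (a = 4 * d.n + 4 ∧ ((i = 0 ∧ j = d.w) ∨ (i = d.w ∧ j = I.N)))) ∨
      (a ≠ 0 ∧ (a ≤ 4 * d.n ∨ 4 * d.n + 5 ≤ a)) := by
  rcases NF.pu_iff.1 h with h | ⟨e, he, h⟩
  · exact Or.inl h
  · simp only [OpD.pa, OpD.pb, OpD.pc, OpD.pd] at h
    by_cases hde : d.n = e.n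
    · have := NF.opds_inj hd he hde
      subst this
      right; left; exact h
    · right; right
      omega

set_option linter.unusedSimpArgs false in
set_option maxHeartbeats 4000000 in
theorem NF.flat_inter {I : NF} (hI : I.OK) : ∀ R ∈ I.data.flats, ∀ v ∈ I.data.verts,
    (I.data.mem R.2.1 v ∧ I.data.mem R.2.2 v) ↔ v ∈ R.1 := by
  intro R hR v hv
  have hsize := NF.size hI
  show (Fc.mem R.2.1 v = true ∧ Fc.mem R.2.2 v = true) ↔ v ∈ R.1
  rcases NF.mem_flats.1 hR with rfl | ⟨d, hd, hR'⟩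
  · simp only [NF.page0, Fc.Q, List.mem_append, List.mem_map, List.mem_range, List.mem_cons,
      List.not_mem_nil, or_false]
    rcases NF.verts_cases hv with rfl | rfl | ⟨a, i, j, hp, rfl⟩ | ⟨g, hg, rfl⟩ | ⟨g, hg, rfl⟩
    · simp [Fc.mem_b1]
    · simp [Fc.mem_b2]
    · have hlt := NF.pu_lt hI hp
      simp only [Fc.mem_u, u_inj, u_ne_b1, u_ne_b2, false_or]
      constructor
      · rintro ⟨⟨h1, _⟩, h2, _⟩
        have ha : a = 0 := by omega
        subst ha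
        have := pu_zero hp
        by_cases hi : i = 0
        · right; omega
        · left; exact ⟨i - 1, by omega, by omega, by omega, by omega⟩
      · rintro (⟨k, hk, h⟩ | h) <;> omega
    · simp only [Fc.mem_p, p_ne_b1, p_ne_b2, p_ne_u, or_false]
      constructor
      · rintro ⟨h, _⟩; omega
      · rintro ⟨k, hk, h⟩; exact absurd h u_ne_p
    · simp only [Fc.mem_q, q_ne_b1, q_ne_b2, q_ne_u, or_false]
      constructor
      · rintro ⟨h, _⟩; omega
      · rintro ⟨k, hk, h⟩; exact absurd h u_ne_q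
  · have hok := NF.opd_ok hI hd
    have hnxt : (4 * d.n + 4 = I.M ∧ d.nxt I.M = 0) ∨ (4 * d.n + 4 ≠ I.M ∧ d.nxt I.M = 4 * d.n + 5) := by
      by_cases h : 4 * d.n + 4 = I.M
      · left; exact ⟨h, by simp [OpD.nxt, h]⟩
      · right; exact ⟨h, by simp [OpD.nxt, h]⟩
    simp only [OpD.flats, List.mem_cons, List.not_mem_nil, or_false] at hR'
    rcases NF.verts_cases hv with rfl | rfl | ⟨a, i, j, hp, rfl⟩ | ⟨g, hg, rfl⟩ | ⟨g, hg, rfl⟩
    · rcases hR' with rfl | rfl | rfl | rfl | rfl | rfl | rfl | rfl | rfl | rfl | rfl | rfl | rfl |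
        rfl | rfl | rfl | rfl
      all_goals
        simp only [OpD.squad, Fc.Q, Fc.GX, Fc.GY, Fc.G, List.mem_cons, List.not_mem_nil, or_false,
          Fc.mem_b1, b1_ne_b2, b1_ne_u, b1_ne_p, b1_ne_q, false_or, true_or, or_true, and_true,
          decide_eq_true_eq, prev_b1, next_b1, OpD.pa, OpD.pb, OpD.pc, OpD.pd]
      all_goals first | omega | (rw [iff_false]; omega)
    · rcases hR' with rfl | rfl | rfl | rfl | rfl | rfl | rfl | rfl | rfl | rfl | rfl | rfl | rfl |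
        rfl | rfl | rfl | rfl
      all_goals
        simp only [OpD.squad, Fc.Q, Fc.GX, Fc.GY, Fc.G, List.mem_cons, List.not_mem_nil, or_false,
          Fc.mem_b2, b2_ne_b1, b2_ne_u, b2_ne_p, b2_ne_q, false_or, true_or, or_true, and_true,
          decide_eq_true_eq, prev_b2, next_b2, OpD.pa, OpD.pb, OpD.pc, OpD.pd]
      all_goals first | omega | (rw [iff_false]; omega)
    · have hlt := NF.pu_lt hI hp
      have hc := pu_cases hp hd
      clear hp hv hR hd hI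
      obtain ⟨h1, h2, h3, h4, h5, h6, h7, h8, -, h10, h11, h12, h13, h14, h15⟩ := hok
      obtain ⟨hs1, -, hs3, hs4⟩ := hsize
      rcases hc with ⟨rfl, hc1, rfl⟩ | hc | ⟨hc1, hc2⟩
      · rcases hR' with rfl | rfl | rfl | rfl | rfl | rfl | rfl | rfl | rfl | rfl | rfl | rfl |
          rfl | rfl | rfl | rfl | rfl
        all_goals
          simp only [OpD.squad, prev_u, next_u]
          simp only [Fc.Q, Fc.GX, Fc.GY, Fc.G, List.mem_cons,
            List.not_mem_nil, or_false,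
            Fc.mem_u, u_ne_b1, u_ne_b2, u_ne_p, u_ne_q, u_inj, false_or,
            OpD.pa, OpD.pb, OpD.pc, OpD.pd, OpD.g0, OpD.g1, OpD.g2, true_and, and_true, true_or,
            or_true, and_false, false_and, iff_false, iff_true, Nat.zero_le, Nat.zero_ne_add_one,
            Nat.add_one_ne_zero, not_true_eq_false, not_false_eq_true]
        all_goals omega
      · rcases hR' with rfl | rfl | rfl | rfl | rfl | rfl | rfl | rfl | rfl | rfl | rfl | rfl |
          rfl | rfl | rfl | rfl | rfl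
        all_goals
          simp only [OpD.squad, prev_u, next_u]
          simp only [Fc.Q, Fc.GX, Fc.GY, Fc.G, List.mem_cons,
            List.not_mem_nil, or_false,
            Fc.mem_u, u_ne_b1, u_ne_b2, u_ne_p, u_ne_q, u_inj, false_or,
            OpD.pa, OpD.pb, OpD.pc, OpD.pd, OpD.g0, OpD.g1, OpD.g2, true_and, and_true, true_or,
            or_true, and_false, false_and, iff_false, iff_true, Nat.zero_le, Nat.zero_ne_add_one,
            Nat.add_one_ne_zero, not_true_eq_false, not_false_eq_true]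
        all_goals
          rcases hc with ⟨rfl, hc⟩ | ⟨rfl, hc⟩ | ⟨rfl, hc⟩ | ⟨rfl, hc⟩
        all_goals
          simp only [Nat.add_left_cancel_iff, Nat.reduceEqDiff, Nat.reduceAdd, false_and, false_or,
            or_false, or_self, and_self, and_false, true_and, true_or, iff_false, iff_self,
            Nat.add_one_sub_one, Nat.succ_ne_self, Nat.zero_ne_add_one, Nat.add_one_ne_zero, and_true]
        all_goals omega
      · have e1 : a ≠ 4 * d.n + 1 := by omega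
        have e2 : a ≠ 4 * d.n + 2 := by omega
        have e3 : a ≠ 4 * d.n + 3 := by omega
        have e4 : a ≠ 4 * d.n + 4 := by omega
        rcases hR' with rfl | rfl | rfl | rfl | rfl | rfl | rfl | rfl | rfl | rfl | rfl | rfl |
          rfl | rfl | rfl | rfl | rfl
        all_goals
          simp only [OpD.squad, prev_u, next_u]
          simp only [Fc.Q, Fc.GX, Fc.GY, Fc.G, List.mem_cons,
            List.not_mem_nil, or_false,
            Fc.mem_u, u_ne_b1, u_ne_b2, u_ne_p, u_ne_q, u_inj, false_or,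
            OpD.pa, OpD.pb, OpD.pc, OpD.pd, OpD.g0, OpD.g1, OpD.g2, true_and, and_true, true_or,
            or_true, and_false, false_and, iff_false, iff_true, Nat.zero_le, Nat.zero_ne_add_one,
            Nat.add_one_ne_zero, not_true_eq_false, not_false_eq_true, e1, e2, e3, e4, hc1, or_self]
        all_goals omega
    · rcases hR' with rfl | rfl | rfl | rfl | rfl | rfl | rfl | rfl | rfl | rfl | rfl | rfl | rfl |
        rfl | rfl | rfl | rfl
      all_goals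
        simp only [OpD.squad, Fc.Q, Fc.GX, Fc.GY, Fc.G, List.mem_cons, List.not_mem_nil, or_false,
          Fc.mem_p, p_ne_b1, p_ne_b2, p_ne_u, p_ne_q, p_inj, false_or, true_or, or_true, and_true,
          if_true, prev_p, next_p, OpD.pa, OpD.pb, OpD.pc, OpD.pd, OpD.g0, OpD.g1, OpD.g2]
      all_goals first | omega | (rw [iff_false]; omega)
    · rcases hR' with rfl | rfl | rfl | rfl | rfl | rfl | rfl | rfl | rfl | rfl | rfl | rfl | rfl |
        rfl | rfl | rfl | rfl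
      all_goals
        simp only [OpD.squad, Fc.Q, Fc.GX, Fc.GY, Fc.G, List.mem_cons, List.not_mem_nil, or_false,
          Fc.mem_q, q_ne_b1, q_ne_b2, q_ne_u, q_ne_p, q_inj, false_or, true_or, or_true, and_true,
          if_true, prev_q, next_q, OpD.pa, OpD.pb, OpD.pc, OpD.pd, OpD.g0, OpD.g1, OpD.g2]
      all_goals first | omega | (rw [iff_false]; omega)

end Pool.Agent.Helper90.G4
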